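import Pool.Agent.Helper26.AF.Base
import Pool.Agent.Helper26.AF.Goals

/-!
Project AF (MP_af6c86_pr), packet ISN.
-/

namespace Pool.Agent.Helper20.AF

open Finset Filter Pool.Agent.Helper26.AF
open scoped Topology

section Comb

variable {V : Type}

/-- A component has at most one vertex more than edges. -/
theorem card_le_eIn (G : SimpleGraph V) (Q : Finset V) (hQ : IsComp G Q) : #Q ≤ eIn G Q + 1 := by
  classical
  obtain ⟨c, hc⟩ := hQ
  have h1 : (G.induce c.supp).Connected := c.connected_toSimpleGraph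
  have hf : Finite c.supp := by
    rw [hc]
    infer_instance
  have h2 := h1.card_vert_le_card_edgeSet_add_one
  have h3 : Nat.card c.supp = #Q := by
    rw [hc]
    simp
  rw [h3] at h2
  refine h2.trans (Nat.add_le_add_right ?_ 1)
  unfold eIn
  have hfin : Finite {e : Sym2 V // e ∈ G.edgeSet ∧ ∀ v ∈ e, v ∈ Q} := by
    have : ({e : Sym2 V | e ∈ G.edgeSet ∧ ∀ v ∈ e, v ∈ Q}).Finite := by
      refine Set.Finite.subset (Q.sym2.finite_toSet) ?_
      intro e he
      simp only [Finset.mem_coe, Finset.mem_sym2_iff]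
      exact he.2
    exact this.to_subtype
  refine Nat.card_le_card_of_injective (fun e : (G.induce c.supp).edgeSet =>
    (⟨Sym2.map Subtype.val e.1, ?_, ?_⟩ : {e : Sym2 V // e ∈ G.edgeSet ∧ ∀ v ∈ e, v ∈ Q})) ?_
  · obtain ⟨e, he⟩ := e
    induction e using Sym2.ind with
    | _ x y => simpa using he
  · intro v hv
    obtain ⟨w, -, rfl⟩ := Sym2.mem_map.1 hv
    have h5 : (w : V) ∈ c.supp := w.2
    rw [Set.ext_iff] at hc
    exact (hc w).1 h5
  · intro e e' h
    have h4 := congrArg Subtype.val h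
    exact Subtype.ext (Sym2.map.injective Subtype.val_injective h4)

end Comb

/-- A component with many edges forces many edges plus components. -/
theorem many {V : Type} [Fintype V] [DecidableEq V] (G : SimpleGraph V) (Q : Finset V)
    (hQ : IsComp G Q) (R : ℕ) (h : #Q + R < eIn G Q) :
    Fintype.card V + R + 2 ≤ ne G + Nat.card G.ConnectedComponent := by
  classical
  obtain ⟨c₀, hc₀⟩ := hQ
  let S : G.ConnectedComponent → Finset V := fun c => c.supp.toFinset
  have hS : ∀ c, IsComp G (S c) := fun c => ⟨c, by simp [S]⟩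
  have h0 : S c₀ = Q := by
    ext v
    simp [S, hc₀]
  have h1 : ∑ c : G.ConnectedComponent, #(S c) = Fintype.card V := by
    rw [← Finset.card_univ, Finset.card_eq_sum_card_fiberwise (f := G.connectedComponentMk)
      (t := (Finset.univ : Finset G.ConnectedComponent)) (fun x _ => by simp)]
    refine Finset.sum_congr rfl fun c _ => ?_
    congr 1
    ext v
    simp [S]
  have h2 : ∑ c : G.ConnectedComponent, eIn G (S c) ≤ ne G := by
    have e1 : ne G = #G.edgeFinset := by
      rw [ne, Nat.card_eq_fintype_card, SimpleGraph.card_edgeSet]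
    have e2 : ∀ c, eIn G (S c) = #(G.edgeFinset.filter fun e => ∀ v ∈ e, v ∈ S c) := by
      intro c
      unfold eIn
      rw [Nat.card_eq_fintype_card, Fintype.card_subtype]
      congr 1
      ext e
      simp
    rw [e1]
    simp only [e2]
    rw [← Finset.card_biUnion]
    · refine Finset.card_le_card ?_
      intro e he
      simp only [Finset.mem_biUnion, Finset.mem_filter] at he
      obtain ⟨_, _, he, _⟩ := he
      exact he
    · intro c _ c' _ hcc
      show Disjoint _ _
      rw [Finset.disjoint_left]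
      intro e he he'
      simp only [Finset.mem_filter] at he he'
      induction e using Sym2.ind with
      | _ x y =>
        have hx := he.2 x (Sym2.mem_mk_left x y)
        have hx' := he'.2 x (Sym2.mem_mk_left x y)
        simp only [S, Set.mem_toFinset, SimpleGraph.ConnectedComponent.mem_supp_iff] at hx hx'
        exact hcc (hx.symm.trans hx')
  have h3 : Fintype.card V + R + 2 ≤ ∑ c : G.ConnectedComponent, (eIn G (S c) + 1) := by
    rw [← Finset.add_sum_erase _ _ (Finset.mem_univ c₀), h0]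
    rw [← Finset.add_sum_erase _ _ (Finset.mem_univ c₀), h0] at h1
    have h4 : ∑ c ∈ Finset.univ.erase c₀, #(S c) ≤ ∑ c ∈ Finset.univ.erase c₀, (eIn G (S c) + 1) :=
      Finset.sum_le_sum fun c _ => card_le_eIn G _ (hS c)
    omega
  rw [Finset.sum_add_distrib] at h3
  simp only [Finset.sum_const, Finset.card_univ, smul_eq_mul, mul_one] at h3
  rw [Nat.card_eq_fintype_card]
  omega

/-- Chernoff bound for binomial coefficients. -/
theorem choose_le (n a : ℕ) (ha : a ≤ n) (hn : 0 < n) :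
    (n.choose a : ℝ) ≤ 2 ^ n * Real.exp (-(2 * a - n) ^ 2 / (2 * n)) := by
  have hn' : (0 : ℝ) < n := by exact_mod_cast hn
  obtain ⟨h, hh⟩ : ∃ h : ℝ, h = (2 * a - n) / n := ⟨_, rfl⟩
  have h1 : (n.choose a : ℝ) * Real.exp (h * (2 * a - n)) ≤
      (Real.exp h + Real.exp (-h)) ^ n := by
    rw [add_pow]
    have h2 : ∀ k ∈ Finset.range (n + 1), Real.exp h ^ k * Real.exp (-h) ^ (n - k) *
        (n.choose k : ℝ) = (n.choose k : ℝ) * Real.exp (h * (2 * k - n)) := by
      intro k hk
      have hk' : k ≤ n := Nat.lt_succ_iff.1 (Finset.mem_range.1 hk)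
      rw [← Real.exp_nat_mul, ← Real.exp_nat_mul, ← Real.exp_add, mul_comm]
      congr 2
      rw [Nat.cast_sub hk']
      ring
    rw [Finset.sum_congr rfl h2]
    exact Finset.single_le_sum (f := fun k : ℕ => (n.choose k : ℝ) * Real.exp (h * (2 * k - n)))
      (fun k _ => by positivity) (Finset.mem_range.2 (Nat.lt_succ_of_le ha))
  have h3 : (Real.exp h + Real.exp (-h)) ^ n ≤ 2 ^ n * Real.exp (n * (h ^ 2 / 2)) := by
    have h4 : Real.exp h + Real.exp (-h) = 2 * Real.cosh h := by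
      rw [Real.cosh_eq]
      ring
    rw [h4, mul_pow, Real.exp_nat_mul]
    gcongr
    exact Real.cosh_le_exp_half_sq h
  have h5 : (n.choose a : ℝ) = (n.choose a : ℝ) * Real.exp (h * (2 * a - n)) *
      Real.exp (-(h * (2 * a - n))) := by
    rw [mul_assoc, ← Real.exp_add]
    simp
  rw [h5]
  calc (n.choose a : ℝ) * Real.exp (h * (2 * a - n)) * Real.exp (-(h * (2 * a - n))) ≤
      2 ^ n * Real.exp (n * (h ^ 2 / 2)) * Real.exp (-(h * (2 * a - n))) :=
        mul_le_mul_of_nonneg_right (h1.trans h3) (Real.exp_pos _).le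
    _ = 2 ^ n * Real.exp (-(2 * a - n) ^ 2 / (2 * n)) := by
        rw [mul_assoc, ← Real.exp_add, hh]
        congr 2
        field_simp
        ring

/-- The Ising sum. -/
theorem ising_le (hISG : StmtISG) (n : ℕ) (hn : 2 ≤ n) (p : ℝ) (h0 : 0 ≤ p) (h1 : p ≤ 1) :
    EE (V := Fin n) p (fun G => (2 : ℝ) ^ (ne G + Nat.card G.ConnectedComponent)) ≤
      2 ^ n * (n + 1) * Real.exp (n ^ 2 * |p - 1 / n| / 2) := by
  have hn' : (0 : ℝ) < n := by
    have : 0 < n := by omega
    exact_mod_cast this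
  rw [hISG]
  simp only [Fintype.card_fin]
  obtain ⟨F, hF⟩ : ∃ F : ℕ → ℝ, F = fun a => (1 - p) ^ (a * (n - a)) *
    (1 + p) ^ (n.choose 2 - a * (n - a)) := ⟨_, rfl⟩
  have hsum : ∑ A : Finset (Fin n), (1 - p) ^ (#A * (n - #A)) *
      (1 + p) ^ (n.choose 2 - #A * (n - #A)) = ∑ a ∈ Finset.range (n + 1), (n.choose a : ℝ) * F a := by
    have := Finset.sum_powerset_apply_card F (x := (Finset.univ : Finset (Fin n)))
    rw [Finset.card_univ, Fintype.card_fin] at this
    rw [hF] at this ⊢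
    rw [Finset.powerset_univ] at this
    simpa [nsmul_eq_mul] using this
  rw [hsum]
  have hterm : ∀ a ∈ Finset.range (n + 1), (n.choose a : ℝ) * F a ≤
      2 ^ n * Real.exp (n ^ 2 * |p - 1 / n| / 2) := by
    intro a ha
    have ha' : a ≤ n := Nat.lt_succ_iff.1 (Finset.mem_range.1 ha)
    have haR : (a : ℝ) ≤ n := by exact_mod_cast ha'
    have hc2 : ((n.choose 2 : ℕ) : ℝ) = n * (n - 1) / 2 := by
      rw [Nat.cast_choose_two]
    have hle : a * (n - a) ≤ n.choose 2 := by
      have : ((a * (n - a) : ℕ) : ℝ) ≤ ((n.choose 2 : ℕ) : ℝ) := by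
        rw [hc2]
        push_cast
        rw [Nat.cast_sub ha']
        have hn2 : (2 : ℝ) ≤ n := by exact_mod_cast hn
        nlinarith [sq_nonneg ((n : ℝ) - 2 * a)]
      exact_mod_cast this
    have e1 : (1 - p) ^ (a * (n - a)) ≤ Real.exp (-(p * (a * (n - a)))) := by
      have : (1 - p) ^ (a * (n - a)) ≤ Real.exp (-p) ^ (a * (n - a)) :=
        pow_le_pow_left₀ (by linarith) (Real.one_sub_le_exp_neg p) _
      refine this.trans (le_of_eq ?_)
      rw [← Real.exp_nat_mul]
      congr 1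
      push_cast
      rw [Nat.cast_sub ha']
      ring
    have e2 : (1 + p) ^ (n.choose 2 - a * (n - a)) ≤
        Real.exp (p * (n * (n - 1) / 2 - a * (n - a))) := by
      have : (1 + p) ^ (n.choose 2 - a * (n - a)) ≤ Real.exp p ^ (n.choose 2 - a * (n - a)) :=
        pow_le_pow_left₀ (by linarith) (by linarith [Real.add_one_le_exp p]) _
      refine this.trans (le_of_eq ?_)
      rw [← Real.exp_nat_mul]
      congr 1
      rw [Nat.cast_sub hle, hc2]
      push_cast
      rw [Nat.cast_sub ha']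
      ring
    have e3 : F a ≤ Real.exp (p * ((2 * a - n) ^ 2 / 2)) := by
      rw [hF]
      calc (1 - p) ^ (a * (n - a)) * (1 + p) ^ (n.choose 2 - a * (n - a)) ≤
          Real.exp (-(p * (a * (n - a)))) * Real.exp (p * (n * (n - 1) / 2 - a * (n - a))) :=
            mul_le_mul e1 e2 (by positivity) (Real.exp_pos _).le
        _ ≤ Real.exp (p * ((2 * a - n) ^ 2 / 2)) := by
            rw [← Real.exp_add]
            apply Real.exp_le_exp.2
            nlinarith [mul_nonneg h0 hn'.le]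
    have e4 : 0 ≤ F a := by
      rw [hF]
      have : 0 ≤ 1 - p := by linarith
      positivity
    calc (n.choose a : ℝ) * F a ≤ 2 ^ n * Real.exp (-(2 * a - n) ^ 2 / (2 * n)) *
        Real.exp (p * ((2 * a - n) ^ 2 / 2)) :=
          mul_le_mul (choose_le n a ha' (by omega)) e3 e4 (by positivity)
      _ = 2 ^ n * Real.exp ((2 * a - n) ^ 2 * (p - 1 / n) / 2) := by
          rw [mul_assoc, ← Real.exp_add]
          congr 2
          field_simp
          ring
      _ ≤ 2 ^ n * Real.exp (n ^ 2 * |p - 1 / n| / 2) := by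
          gcongr ?_ * Real.exp (?_ / 2)
          have h5 : (2 * (a : ℝ) - n) ^ 2 ≤ n ^ 2 := by
            have : 0 ≤ (a : ℝ) := Nat.cast_nonneg a
            nlinarith
          calc (2 * (a : ℝ) - n) ^ 2 * (p - 1 / n) ≤ (2 * (a : ℝ) - n) ^ 2 * |p - 1 / n| :=
                mul_le_mul_of_nonneg_left (le_abs_self _) (sq_nonneg _)
            _ ≤ _ := mul_le_mul_of_nonneg_right h5 (abs_nonneg _)
  refine (Finset.sum_le_sum hterm).trans (le_of_eq ?_)
  rw [Finset.sum_const, Finset.card_range, nsmul_eq_mul]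
  push_cast
  ring

/-- The probability bound. -/
theorem prob_le (hISG : StmtISG) (n : ℕ) (hn : 2 ≤ n) (p : ℝ) (h0 : 0 ≤ p) (h1 : p ≤ 1) (R : ℕ) :
    Pr p (fun G : SimpleGraph (Fin n) => ∃ Q, IsComp G Q ∧ #Q + R < eIn G Q) ≤
      (n + 1) * Real.exp (n ^ 2 * |p - 1 / n| / 2) / 2 ^ R := by
  have h2 : (2 : ℝ) ^ (n + R + 2) *
      Pr p (fun G : SimpleGraph (Fin n) => ∃ Q, IsComp G Q ∧ #Q + R < eIn G Q) ≤
      2 ^ n * (n + 1) * Real.exp (n ^ 2 * |p - 1 / n| / 2) := by
    refine (Pr_markov h0 h1 (f := fun G => (2 : ℝ) ^ (ne G + Nat.card G.ConnectedComponent))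
      (fun G => by positivity) ?_).trans (ising_le hISG n hn p h0 h1)
    rintro G ⟨Q, hQ, h⟩
    have := many G Q hQ R h
    rw [Fintype.card_fin] at this
    exact pow_le_pow_right₀ (by norm_num) this
  have h3 := Pr_nonneg h0 h1 (fun G : SimpleGraph (Fin n) => ∃ Q, IsComp G Q ∧ #Q + R < eIn G Q)
  rw [le_div_iff₀ (by positivity)]
  have h4 : (0 : ℝ) < 2 ^ n := by positivity
  refine le_of_mul_le_mul_left ?_ h4
  calc (2 : ℝ) ^ n * (Pr p (fun G : SimpleGraph (Fin n) => ∃ Q, IsComp G Q ∧ #Q + R < eIn G Q) *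
        2 ^ R) ≤ (2 : ℝ) ^ (n + R + 2) *
      Pr p (fun G : SimpleGraph (Fin n) => ∃ Q, IsComp G Q ∧ #Q + R < eIn G Q) := by
        rw [pow_add, pow_add]
        have : 0 ≤ (2 : ℝ) ^ n * 2 ^ R *
          Pr p (fun G : SimpleGraph (Fin n) => ∃ Q, IsComp G Q ∧ #Q + R < eIn G Q) := by positivity
        nlinarith
    _ ≤ _ := h2
    _ = _ := by ring

theorem pc_sub (l : ℝ) (n : ℕ) : pc l n - 1 / n = l / ((n : ℝ) ^ ((1 : ℝ) / 3) * n) := by
  unfold pc
  rw [add_div, div_div]
  ring

theorem tendsto_pc (l : ℝ) : Tendsto (fun n : ℕ => pc l n * n) atTop (𝓝 1) := by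
  have h1 : Tendsto (fun n : ℕ => l / (n : ℝ) ^ ((1 : ℝ) / 3)) atTop (𝓝 0) := by
    refine Tendsto.const_div_atTop ?_ l
    exact (tendsto_rpow_atTop (by norm_num)).comp tendsto_natCast_atTop_atTop
  have h2 : Tendsto (fun n : ℕ => 1 + l / (n : ℝ) ^ ((1 : ℝ) / 3)) atTop (𝓝 1) := by
    simpa using h1.const_add 1
  refine h2.congr' ?_
  filter_upwards [eventually_gt_atTop 0] with n hn
  have hn' : (n : ℝ) ≠ 0 := by positivity
  unfold pc
  rw [div_mul_cancel₀ _ hn']

theorem pc_mem (l : ℝ) : ∀ᶠ n : ℕ in atTop, 0 ≤ pc l n ∧ pc l n ≤ 1 := by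
  filter_upwards [(tendsto_pc l).eventually (lt_mem_nhds (by norm_num : (0 : ℝ) < 1)),
    (tendsto_pc l).eventually (gt_mem_nhds (by norm_num : (1 : ℝ) < 2)), eventually_ge_atTop 2]
    with n h1 h2 hn
  have hn' : (2 : ℝ) ≤ n := by exact_mod_cast hn
  constructor
  · by_contra h
    have h' := not_le.1 h
    nlinarith
  · by_contra h
    have h' := not_le.1 h
    nlinarith

theorem goalISN (hISG : StmtISG) : StmtISN := by
  intro l c hc
  have hlog : 0 < Real.log 2 := Real.log_pos (by norm_num)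
  obtain ⟨δ, hδ⟩ : ∃ δ, δ = c * Real.log 2 / 2 := ⟨_, rfl⟩
  have hδ0 : 0 < δ := by rw [hδ]; positivity
  -- the exponent
  have h1 : ∀ᶠ n : ℕ in atTop, (n : ℝ) ^ 2 * |pc l n - 1 / n| / 2 ≤ δ * n := by
    have h2 : Tendsto (fun n : ℕ => |l| / (n : ℝ) ^ ((1 : ℝ) / 3)) atTop (𝓝 0) := by
      refine Tendsto.const_div_atTop ?_ _
      exact (tendsto_rpow_atTop (by norm_num)).comp tendsto_natCast_atTop_atTop
    filter_upwards [h2.eventually (gt_mem_nhds hδ0), eventually_gt_atTop 0] with n h3 hn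
    have hn' : (0 : ℝ) < n := by exact_mod_cast hn
    have hr : 0 < (n : ℝ) ^ ((1 : ℝ) / 3) := Real.rpow_pos_of_pos hn' _
    rw [pc_sub, abs_div, abs_of_pos (mul_pos hr hn')]
    have h4 : (n : ℝ) ^ 2 * (|l| / ((n : ℝ) ^ ((1 : ℝ) / 3) * n)) =
        |l| / (n : ℝ) ^ ((1 : ℝ) / 3) * n := by
      field_simp
    rw [h4]
    have h5 : 0 ≤ |l| / (n : ℝ) ^ ((1 : ℝ) / 3) * n := by positivity
    nlinarith
  -- the bound
  have h2 : ∀ᶠ n : ℕ in atTop, Pr (pc l n) (fun G : SimpleGraph (Fin n) =>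
      ∃ Q, IsComp G Q ∧ #Q + ⌊c * n⌋₊ < eIn G Q) ≤ 2 * ((n + 1) * Real.exp (-δ * n)) := by
    filter_upwards [h1, pc_mem l, eventually_ge_atTop 2] with n h3 h4 hn
    refine (prob_le hISG n hn _ h4.1 h4.2 _).trans ?_
    have h5 : (2 : ℝ) ^ ⌊c * n⌋₊ ≥ Real.exp (2 * δ * n) / 2 := by
      have h6 : c * n - 1 < ⌊c * n⌋₊ := by
        have := Nat.lt_floor_add_one (c * (n : ℝ))
        linarith
      rw [ge_iff_le, div_le_iff₀ (by norm_num), ← Real.rpow_natCast 2,
        Real.rpow_def_of_pos (by norm_num)]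
      have h7 : (2 : ℝ) = Real.exp (Real.log 2) := (Real.exp_log (by norm_num)).symm
      conv_rhs => rw [h7]
      rw [← Real.exp_add]
      apply Real.exp_le_exp.2
      rw [← h7, hδ]
      nlinarith
    have h6 : 0 < Real.exp (2 * δ * n) / 2 := by positivity
    calc (n + 1) * Real.exp (n ^ 2 * |pc l n - 1 / n| / 2) / 2 ^ ⌊c * n⌋₊ ≤
        (n + 1) * Real.exp (δ * n) / (Real.exp (2 * δ * n) / 2) := by gcongr
      _ = 2 * ((n + 1) * Real.exp (-δ * n)) := by
          rw [show -δ * (n : ℝ) = δ * n - 2 * δ * n by ring, Real.exp_sub]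
          field_simp
  have h3 : Tendsto (fun n : ℕ => 2 * (((n : ℝ) + 1) * Real.exp (-δ * n))) atTop (𝓝 0) := by
    have h4 : Tendsto (fun x : ℝ => x ^ 1 * Real.exp (-δ * x)) atTop (𝓝 0) := by
      have := Real.tendsto_pow_mul_exp_neg_atTop_nhds_zero 1
      have h5 := this.comp (tendsto_id.const_mul_atTop hδ0)
      have h6 := h5.const_mul δ⁻¹
      rw [mul_zero] at h6
      refine h6.congr fun x => ?_
      simp only [Function.comp, id, pow_one]
      rw [neg_mul]
      field_simp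
    have h5 : Tendsto (fun x : ℝ => Real.exp (-δ * x)) atTop (𝓝 0) := by
      refine Real.tendsto_exp_atBot.comp ?_
      exact tendsto_id.const_mul_atTop_of_neg (by linarith)
    have h6 := ((h4.add h5).const_mul 2).comp (tendsto_natCast_atTop_atTop (R := ℝ))
    simp only [add_zero, mul_zero] at h6
    refine h6.congr fun n => ?_
    simp only [Function.comp]
    ring
  refine squeeze_zero' ?_ h2 h3
  filter_upwards [pc_mem l] with n h
  exact Pr_nonneg h.1 h.2 _

end Pool.Agent.Helper20.AF
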